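import Mathlib

namespace Pool.Agent.Results.MP_9a0911_co.Six

/-- Latin square of order n -/
def IsLatin {n : ℕ} (L : Fin n → Fin n → Fin n) : Prop :=
  (∀ i, Function.Bijective fun j => L i j) ∧ ∀ j, Function.Bijective fun i => L i j

/-- number of distinct superimposed pairs -/
def npairs {n : ℕ} (L M : Fin n → Fin n → Fin n) : ℕ :=
  (Finset.univ.image fun p : Fin n × Fin n => (L p.1 p.2, M p.1 p.2)).card

/-- two by two Latin subsquare -/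
def Sub {n : ℕ} (L : Fin n → Fin n → Fin n) (i i' j j' : Fin n) : Prop :=
  L i j = L i' j' ∧ L i j' = L i' j ∧ L i j ≠ L i j'

def L0 : Fin 6 → Fin 6 → Fin 6 :=
  ![![0, 3, 5, 2, 1, 4], ![4, 0, 3, 1, 5, 2], ![2, 4, 1, 5, 3, 0], ![5, 1, 2, 0, 4, 3],
    ![3, 5, 0, 4, 2, 1], ![1, 2, 4, 3, 0, 5]]

def M0 : Fin 6 → Fin 6 → Fin 6 :=
  ![![1, 2, 4, 3, 0, 5], ![4, 1, 3, 0, 5, 2], ![0, 3, 5, 2, 1, 4], ![3, 4, 1, 5, 2, 0],
    ![5, 0, 2, 1, 4, 3], ![2, 5, 0, 4, 3, 1]]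

theorem result : ∃ (n : ℕ) (L M : Fin n → Fin n → Fin n), IsLatin L ∧ IsLatin M ∧
    npairs L M + 2 = n ^ 2 ∧
    ¬ ∃ i i' j j', i ≠ i' ∧ j ≠ j' ∧ Sub L i i' j j' ∧ Sub M i i' j j' := by
  refine ⟨6, L0, M0, ?_, ?_, ?_, ?_⟩
  · unfold IsLatin; decide +kernel
  · unfold IsLatin; decide +kernel
  · decide +kernel
  · unfold Sub; decide +kernel

end Pool.Agent.Results.MP_9a0911_co.Six
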